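import Pool.Agent.Helper68.LM2.Asm

/-!
# Domains with finitely many flat points of monotone curvature: `(G_p)` implies boundedness on `L^p`

Near a flat point the curve is cut at the points `τ_n` with `φ'(τ_n) = 2 ^ (-n - m₀)`. Low frequencies: the averages over the pieces are
compared, through an adapted dyadic filtration, with convolutions with the masses `τ_n - τ_(n+1)` at the scales `2 ^ (k - n - m₀)` in
one direction, and `∑ τ_n ^ p < ∞` gives the bound (`p ≥ 2`: Young's inequality for square functions; `p < 2`: a Calderon-Zygmund
decomposition whose stopping rule depends on the scale). High frequencies: stationary phase with a gain summable over the pieces.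
-/

open MeasureTheory Set
open Pool.Agent.Helper61.Lacunary (ConditionG LpBounded)
open Pool.Agent.Helper68.LM (Pl CurvedAt FlatAt)

namespace Pool.Agent.Results.MP_cb927e_an.FlatPointsSharp

theorem result (Ω : Set Pl) (hopen : IsOpen Ω) (hconv : Convex ℝ Ω) (hbdd : Bornology.IsBounded Ω)
    (h0 : (0 : Pl) ∈ Ω)
    (hloc : ∀ y ∈ frontier Ω, CurvedAt (frontier Ω) y ∨ FlatAt (frontier Ω) y)
    (p : ℝ) (hp : 1 < p) (hG : ConditionG Ω p) : LpBounded Ω p :=
  Pool.Agent.Helper68.LM2.aTHC Ω p hopen hconv hbdd h0 hloc hp hG

end Pool.Agent.Results.MP_cb927e_an.FlatPointsSharp
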